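import Pool.Agent.Lib.MP_688fd0_co.SQ5.H85.FlipG

/-!
Type C2, near triples (helper97): windows and flips of one family of base windows, for a closed set `A` of strands and its
rungs `C` (all rungs which meet `A`) whose puzzle is strongly connected. Nothing is assumed about the other rungs.
-/

set_option autoImplicit false

namespace Pool.Agent.Lib.MP_688fd0_co.SQ5.H97

open Pool.Agent.Lib.MP_688fd0_co.OSF Pool.Agent.Lib.MP_688fd0_co.SQ2 Pool.Agent.Lib.MP_688fd0_co.SQ3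
open Pool.Agent.Lib.MP_688fd0_co.SQ4 Pool.Agent.Lib.MP_688fd0_co.SQ4.CV
open SQ2.V (Puz Sub)
open SQ2.V.Puz (St)
open SQ3.Real
open SQ3.V (Back flipAK flipBK)
open SQ5.H85 (lamU bnd lamU_mono)

section

variable {S R : Type} [Fintype S] [DecidableEq S] [Fintype R] {Q : Type} [Group Q] [DecidableEq Q] {B : Lb.{0, 0} Q}
  {U : Up B} {ζ : Q} {T : FamW S R U ζ} {A : S → Prop} {C : R → Prop}

omit [Fintype R] in
/-- The steps from the caps over `A` can be undone. -/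
theorem retK_of_clo (hc : T.Clo A C) (hfull : ∀ r v, T.puz.On r v → A v → C r) (hs : SCon hc.puz) :
    T.puz.RetK C := by
  have hon : ∀ r v, C r → T.puz.On r v → A v := by
    rintro r v hr (rfl | rfl)
    · exact hc.x r hr
    · exact hc.y r hr
  have hcl : ∀ r r' v, C r → T.puz.Adj r r' v → C r' := fun r r' v hr ha =>
    hfull r' v ha.2.1 (hon r v hr ha.1)
  have hstep : ∀ r r' : {r // C r}, Nx hc.puz r r' → T.puz.RStep r r' := by
    rintro r r' ⟨q, v, ha, rfl⟩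
    exact ⟨q, v, (hc.sub.adj_iff _ _ _).2 ha, rfl⟩
  refine SQ2.V.Puz.RetK.of_strong (fun r r' v hr ha => (hc.tau r').1 (hcl r r' v hr ha)) fun r q v hr ha => ?_
  have h1 := hs ⟨T.puz.tau q, (hc.tau q).1 (hcl r q v hr ha)⟩ ⟨r, hr⟩
  exact Relation.ReflTransGen.lift (fun r : {r // C r} => (r : R)) hstep _ _ h1

omit [Fintype S] [DecidableEq S] [Fintype R] in
/-- The first state is good. -/
theorem good_st {P : Puz S R} (f : R) : P.Good (P.st₁ f) := by
  refine ⟨?_, ?_⟩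
  · intro t t' h
    exact Subtype.ext ((P.T f).injective h)
  · intro L
    have hon : P.On (P.tau f) L ↔ P.On f ((P.T f)⁻¹ L) := by
      obtain ⟨h1, h2⟩ | ⟨h1, h2⟩ := P.T_ends f
      · unfold Puz.On
        rw [← h1, ← h2, Equiv.Perm.inv_eq_iff_eq, Equiv.Perm.inv_eq_iff_eq]
      · unfold Puz.On
        rw [← h1, ← h2, Equiv.Perm.inv_eq_iff_eq, Equiv.Perm.inv_eq_iff_eq, or_comm]
    show (∃ t : P.TokOf f, P.T f t = L) ↔ ¬ P.On (P.tau f) L
    rw [hon]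
    constructor
    · rintro ⟨t, rfl⟩
      have : (P.T f)⁻¹ (P.T f (t : S)) = t := (P.T f).symm_apply_apply _
      rw [this]
      exact t.2
    · intro h
      exact ⟨⟨_, h⟩, (P.T f).apply_symm_apply _⟩

/-- The conditions on the puzzle over `A` of a path with centre `x` and leaves `s₁`, `s₂`. -/
structure FA (hc : T.Clo A C) (f g : R) (l₀ : S) (F : Finset Q) (x s₁ s₂ : Q) (h : ℕ) : Prop where
  gF : ∀ v, v ∈ F ↔ ∃ s, T.g s = v
  hle : ∀ r, T.real.H r ≤ h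
  adj : T.puz.Adj g f l₀
  hx : T.g l₀ = x
  h₁ : T.g (T.puz.oth f l₀) = s₁
  h₂ : T.g (T.puz.oth g l₀) = s₂
  l : A l₀
  full : ∀ r v, T.puz.On r v → A v → C r
  con : SCon hc.puz
  hyp : hc.puz.HypK fun _ => True

variable {hc : T.Clo A C} {f g : R} {l₀ : S} {F : Finset Q} {x s₁ s₂ : Q} {h : ℕ}

omit [Fintype R] in
theorem FA.back (hT : FA hc f g l₀ F x s₁ s₂ h) : Back T.puz f g l₀ :=
  Back.of_ret (retK_of_clo hc hT.full hT.con) (hT.full g l₀ hT.adj.1 hT.l) hT.adj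

theorem FA.base (hT : FA hc f g l₀ F x s₁ s₂ h) : ∃ (E : TW B) (n : ℕ), EWr T.real f g l₀ E n ∧
    n ≤ (NW S R + 2) * (T.e + h) :=
  real0 _ _ T.puz Q B U T.real ζ f g l₀ h T.per hT.hle hT.adj hT.back.stb

omit [Fintype R] in
theorem FA.frS (hT : FA hc f g l₀ F x s₁ s₂ h) (n : ℕ) : frS U T.g T.inj n = im (U.U ^ n) F := by
  ext y
  rw [mem_frS, mem_im]
  constructor
  · rintro ⟨s, rfl⟩
    rw [hT.gF]
    exact ⟨s, by simp⟩
  · intro h
    obtain ⟨s, hs⟩ := (hT.gF _).1 h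
    exact ⟨s, by rw [hs]; simp⟩

omit [Fintype R] in
theorem FA.fwin (hT : FA hc f g l₀ F x s₁ s₂ h) {X : TW B} {n : ℕ} (hE : EWr T.real f g l₀ X n) :
    FWin U T.e F (T.lev f) x s₁ s₂ X n where
  L₀ := hE.L₀.trans (hT.frS _)
  u₁ := by rw [hE.u₁, ← hT.hx]; rfl
  u₀ := by rw [hE.u₀, ← hT.h₁]; rfl
  flat := by
    have h1 := hE.flat
    have h2 : T.real.vt (T.puz.oth g l₀) (T.real.lev f) = (U.U ^ T.lev f) s₂ := by
      rw [← hT.h₂]; rfl
    rwa [h2] at h1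
  dvd := hE.dvd

/-- Windows exist. -/
theorem FA.win (hT : FA hc f g l₀ F x s₁ s₂ h) {Λ : ℕ} (hΛ : lamU (Nat.card S) (Nat.card R) T.e h ≤ Λ) :
    ∃ (X : TW B) (n : ℕ), n ≤ Λ ∧ FWin U T.e F (T.lev f) x s₁ s₂ X n := by
  obtain ⟨E, n, hE, hn⟩ := hT.base
  exact ⟨E, n, (bnd hn (Nat.le_add_right _ _)).trans hΛ, hT.fwin hE⟩

omit [Fintype R] in
/-- The sum of the weights of the tokens over `A` at the start. -/
theorem FA.sum (hT : FA hc f g l₀ F x s₁ s₂ h) [DecidablePred A] {K : Type} [Field K] {w : Q → K}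
    (hw : w x + w s₁ = 0) (hsum : (∑ v : S, if A v then w (T.g v) else 0) ≠ 0)
    [hd : ∀ t : T.puz.TokOf f, Decidable ((T.puz.st₁ f).2 t ∈ Set.range hc.sub.iS)] :
    (∑ t : T.puz.TokOf f, if (T.puz.st₁ f).2 t ∈ Set.range hc.sub.iS then w (T.g (t : S)) else 0) ≠ 0 := by
  classical
  intro h0
  apply hsum
  have hCf : C f := hT.full f l₀ hT.adj.2.1 hT.l
  have hne : T.puz.oth f l₀ ≠ l₀ := by
    intro h1
    have h2 := T.puz.ne f
    unfold Puz.oth at h1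
    split_ifs at h1 with h3
    · exact h2 (h3.symm.trans h1.symm)
    · rcases hT.adj.2.1 with h4 | h4
      · exact h3 h4
      · exact h2 (h1.trans h4)
  have hon : ∀ v : S, T.puz.On f v ↔ v = l₀ ∨ v = T.puz.oth f l₀ := by
    intro v
    unfold Puz.oth Puz.On
    rcases hT.adj.2.1 with h4 | h4
    · rw [if_pos h4, h4]
    · by_cases h5 : l₀ = T.puz.x f
      · exact absurd (h5.symm.trans h4) (T.puz.ne f)
      · rw [if_neg h5, h4, or_comm]
  have hAo : A (T.puz.oth f l₀) := by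
    have h5 : T.puz.On f (T.puz.oth f l₀) := (hon _).2 (Or.inr rfl)
    rcases h5 with h6 | h6
    · rw [h6]; exact hc.x f hCf
    · rw [h6]; exact hc.y f hCf
  set W : S → K := fun v => if A v then w (T.g v) else 0 with hW
  have e2 : ∑ s : S, W s = ∑ s : S with T.puz.On f s, W s + ∑ s : S with ¬ T.puz.On f s, W s :=
    (Finset.sum_filter_add_sum_filter_not _ _ _).symm
  have e3 : ∑ s : S with T.puz.On f s, W s = 0 := by
    have h5 : (Finset.univ.filter fun s : S => T.puz.On f s) = {l₀, T.puz.oth f l₀} := by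
      ext v
      simp only [Finset.mem_filter, Finset.mem_univ, true_and, Finset.mem_insert, Finset.mem_singleton]
      exact hon v
    rw [h5, Finset.sum_pair hne.symm]
    show (if A l₀ then w (T.g l₀) else 0) + (if A (T.puz.oth f l₀) then w (T.g (T.puz.oth f l₀)) else 0) = 0
    rw [if_pos hT.l, if_pos hAo, hT.hx, hT.h₁]
    exact hw
  have e4 : ∑ s : S with ¬ T.puz.On f s, W s = ∑ t : T.puz.TokOf f, W (t : S) := by
    rw [Finset.sum_subtype (Finset.univ.filter fun s : S => ¬ T.puz.On f s) (p := fun s => ¬ T.puz.On f s) (by simp)]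
  rw [e2, e3, zero_add, e4]
  refine Eq.trans ?_ h0
  refine Finset.sum_congr rfl fun t _ => ?_
  have h7 : (T.puz.st₁ f).2 t ∈ Set.range hc.sub.iS ↔ A (t : S) := by
    rw [hc.range]
    exact (hc.iff_T (t : S) hCf).symm
  by_cases h5 : A (t : S)
  · rw [if_pos (h7.2 h5)]
    exact if_pos h5
  · rw [if_neg fun h6 => h5 (h7.1 h6)]
    exact if_neg h5

/-- FLIPA: without flips there is a potential over `A`. -/
theorem FA.potA (hT : FA hc f g l₀ F x s₁ s₂ h) [DecidablePred A] [Fintype {r // C r}] {K : Type} [Field K]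
    (hδ : hc.puz.Wt K)
    (hf : ((Nat.card {v // A v}).factorial : K) ≠ 0) (h2 : (2 : K) ≠ 0) {V : Ev B K} (hinv : V.Inv ζ) {o : K}
    (ho : ∀ y, V.e y (U.up y) = o) {cu : R → K}
    (hcup : ∀ r, V.vol ((U.U ^ T.lev r) (T.g (T.x r))) (T.W r).cup = cu r)
    (hcap : ∀ r, V.vol (T.W r).w₀ (T.W r).cap = cu (T.tau r))
    (hth : ∀ r, C r → ∀ s, ¬ A s →
      V.vol ((U.U ^ T.lev r) (T.g s)) ((T.W r).path ((U.U ^ T.lev r) (T.g s))) = (T.H r : K) * o)
    {w : Q → K} (hwl : ∀ s, w ((U.U ^ T.lev f) (T.g s)) = w (T.g s)) (hw : w x + w s₁ = 0)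
    (hsum : (∑ v : S, if A v then w (T.g v) else 0) ≠ 0) {Λ : ℕ} (hΛ : lamU (Nat.card S) (Nat.card R) T.e h ≤ Λ)
    (hN : ∀ (X X' : TW B) (n : ℕ), n ≤ Λ → FWin U T.e F (T.lev f) x s₁ s₂ X n →
      Ver U X X' n ((U.U ^ T.lev f) s₂) → dvolE V w X X' = 0) :
    ∃ Φ : S → K, ∀ r, C r → cu r = Φ (T.y r) - Φ (T.x r) := by
  have hv := T.vols V hinv
  have e1 : (fun r => V.vol ((U.U ^ T.lev r) (T.g (T.x r))) (T.W r).cup) = cu := funext hcup
  have e2 : (fun r => V.vol (T.W r).w₀ (T.W r).cap) = fun r => cu (T.puz.tau r) := funext hcap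
  rw [e1, e2] at hv
  set θ : R → S → K := fun r s =>
    V.vol ((U.U ^ T.lev r) (T.g s)) ((T.W r).path ((U.U ^ T.lev r) (T.g s))) with hθ
  have hCf : C f := hT.full f l₀ hT.adj.2.1 hT.l
  by_contra hcon
  have hflip : T.puz.Flip cu (fun r L => θ r L - (T.real.H r : K) * o) (fun s => w (T.real.g s)) f g l₀ := by
    refine flipAK _ _ _ _ K T.puz hc.puz hc.sub (fun _ => True) cu _ (fun s => w (T.g s)) f g l₀ (T.puz.st₁ f)
      ⟨T.puz.tau f, (hc.tau f).1 hCf⟩ hT.back ?_ (SQ2.V.Puz.WReach.refl _) rfl (good_st f).1 (good_st f).2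
      (hT.sum hw hsum) hT.hyp trivial ?_ h2 hδ ?_
    · rintro ⟨r, hr⟩ s hs
      have h3 : ¬ A s := fun h4 => hs ((hc.range s).2 h4)
      show θ r s - (T.H r : K) * o = 0
      rw [sub_eq_zero]
      exact hth r hr s h3
    · rw [← Nat.card_eq_fintype_card]
      exact hf
    · rintro ⟨β, hβ⟩
      apply hcon
      refine ⟨fun v => if hv : A v then β ⟨v, hv⟩ else 0, fun r hr => ?_⟩
      have h3 := hβ ⟨r, hr⟩
      beta_reduce
      rw [dif_pos (hc.x r hr), dif_pos (hc.y r hr)]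
      exact h3
  obtain ⟨E₀, n₀, hE₀, hn₀⟩ := hT.base
  obtain ⟨X, X', n, hver, hEW, _, hn, hdv⟩ := realACw w o T.per.1 hT.hle hT.adj hT.back hv ho (fun _ => rfl)
    hwl hE₀ hflip
  apply hdv
  refine hN X X' n ((bnd hn₀ hn).trans hΛ) (hT.fwin hEW) ?_
  have h3 : T.real.vt (T.puz.oth g l₀) (T.real.lev f) = (U.U ^ T.lev f) s₂ := by
    rw [← hT.h₂]; rfl
  rwa [h3] at hver

/-- FLIPB: without flips the drift is constant over `A`. -/
theorem FA.potB (hT : FA hc f g l₀ F x s₁ s₂ h) [DecidablePred A] [Fintype {r // C r}] {K : Type} [Field K]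
    (hδ : hc.puz.Wt K)
    (hf : ((Nat.card {v // A v}).factorial : K) ≠ 0) (h2 : (2 : K) ≠ 0) (he : ((T.e : ℕ) : K) ≠ 0) {V : Ev B K}
    (hinv : V.Inv ζ) (homU : ∀ x, V.wt U (U.U x) = V.wt U x)
    {w : Q → K} (hwl : ∀ s, w ((U.U ^ T.lev f) (T.g s)) = w (T.g s)) (hw : w x + w s₁ = 0)
    (hsum : (∑ v : S, if A v then w (T.g v) else 0) ≠ 0) {Λ : ℕ} (hΛ : lamU (Nat.card S) (Nat.card R) T.e h ≤ Λ)
    (hN : ∀ (X X' : TW B) (n : ℕ), n ≤ Λ → FWin U T.e F (T.lev f) x s₁ s₂ X n →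
      Ver U X X' n ((U.U ^ T.lev f) s₂) → dvolE V w X X' = 0) :
    ∀ r, C r → V.wt U (T.g (T.x r)) = V.wt U (T.g (T.y r)) := by
  have hv := T.vols V hinv
  have hCf : C f := hT.full f l₀ hT.adj.2.1 hT.l
  by_contra hcon
  push Not at hcon
  obtain ⟨r, hr, hne⟩ := hcon
  have hflip := flipBK _ _ _ _ K T.puz hc.puz hc.sub (fun _ => True) (fun s => V.wt U (T.real.g s))
    (fun s => w (T.g s)) f (T.puz.st₁ f) ⟨T.puz.tau f, (hc.tau f).1 hCf⟩ (SQ2.V.Puz.WReach.refl _) rfl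
    (good_st f).1 (good_st f).2 (hT.sum hw hsum) hT.hyp trivial (by
      rw [← Nat.card_eq_fintype_card]
      exact hf) h2 hδ ⟨⟨r, hr⟩, hne⟩
    (T.puz.gam (fun s => V.wt U (T.real.g s)) (fun t : T.puz.TokOf f => w (T.real.g t.1))
      (T.puz.stb f g l₀) f l₀)
  obtain ⟨E₀, n₀, hE₀, hn₀⟩ := hT.base
  obtain ⟨X, X', n, hver, hEW, _, hn, hdv⟩ := realBEKw w T.per.1 hT.hle hT.adj hT.back hv homU he
    hwl hE₀ hflip
  apply hdv
  refine hN X X' n ((bnd hn₀ hn).trans hΛ) (hT.fwin hEW) ?_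
  have h3 : T.real.vt (T.puz.oth g l₀) (T.real.lev f) = (U.U ^ T.lev f) s₂ := by
    rw [← hT.h₂]; rfl
  rwa [h3] at hver

end

end Pool.Agent.Lib.MP_688fd0_co.SQ5.H97
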