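import Pool.Agent.Lib.MP_688fd0_co.SQ5.N.Iface
import Pool.Agent.Lib.MP_688fd0_co.SQ5.H97.FlipG

/-!
Type C2, NEAR-3, row FLIPN (helper97): windows and flips of the class of the `t`-rungs.
-/

set_option autoImplicit false

namespace Pool.Agent.Lib.MP_688fd0_co.SQ5.N

open Pool.Agent.Lib.MP_688fd0_co.OSF Pool.Agent.Lib.MP_688fd0_co.SQ2 Pool.Agent.Lib.MP_688fd0_co.SQ3
open Pool.Agent.Lib.MP_688fd0_co.SQ4 Pool.Agent.Lib.MP_688fd0_co.SQ4.CV
open SQ2.V (Puz)
open SQ5.H85 (lamU lamU_mono)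
open SQ5.H97

/-- For fixed `l` the second strands are a permutation of the strands. -/
theorem yN_inj {D : Type} [Group D] (e : ℕ) [NeZero e] (w p : D) (i k : ℕ) (l : Fin k) :
    Function.Injective fun s : Fin e × D => yN e w p i k (s, l) := by
  rintro ⟨c, d⟩ ⟨c', d'⟩ h
  have hc := c.2
  have hc' := c'.2
  have he : (0 : ℤ) < e := by exact_mod_cast NeZero.pos e
  have h0 : stN e w ((c : ℤ) + e * (l : ℤ) - i) (d * w ^ (l : ℕ) * p⁻¹) =
      stN e w ((c' : ℤ) + e * (l : ℤ) - i) (d' * w ^ (l : ℕ) * p⁻¹) := h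
  unfold stN at h0
  rw [Prod.mk.injEq, Fin.mk.injEq] at h0
  obtain ⟨h1, h2⟩ := h0
  have h3 : ((c : ℤ) + e * (l : ℤ) - i) % (e : ℤ) = ((c' : ℤ) + e * (l : ℤ) - i) % (e : ℤ) := by
    have h4 := Int.emod_nonneg ((c : ℤ) + e * (l : ℤ) - i) he.ne'
    have h5 := Int.emod_nonneg ((c' : ℤ) + e * (l : ℤ) - i) he.ne'
    omega
  have h4 : (e : ℤ) ∣ (c : ℤ) - c' := by
    have h5 := (Int.emod_emod_of_dvd _ dvd_rfl : _) ▸ Int.emod_emod_of_dvd ((c : ℤ) - c') (dvd_refl (e : ℤ))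
    have h6 : ((c' : ℤ) + e * (l : ℤ) - i) ≡ ((c : ℤ) + e * (l : ℤ) - i) [ZMOD e] := h3.symm
    have h7 := h6.dvd
    have h8 : (c : ℤ) + e * (l : ℤ) - i - ((c' : ℤ) + e * (l : ℤ) - i) = (c : ℤ) - c' := by ring
    rwa [h8] at h7
  have h5 : (c : ℤ) - c' = 0 := by
    apply Int.eq_zero_of_abs_lt_dvd h4
    rw [abs_lt]
    constructor <;> omega
  have h6 : c = c' := Fin.ext (by omega)
  subst h6
  have h7 := mul_right_cancel (mul_right_cancel (mul_right_cancel h2))
  rw [h7]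

section

variable {Q : Type} [Group Q] [DecidableEq Q] {B : Lb.{0, 0} Q} {a t b : B.L} {eps : Q →* ℤˣ} {D : Subgroup Q}
  {u : Q} {i j k : ℕ} {H : HypN B a t b eps D u i j k} [NeZero (i + j)] [Fintype D] [DecidableEq D]
  {X : ClsW H.up (gN D u (i + j)) H.inj (2 * k) (RgN (i + j) k D)}

omit [DecidableEq Q] [NeZero (i + j)] [Fintype D] [DecidableEq D] in
theorem HypN.eg (H : HypN B a t b eps D u i j k) (s : Fin (i + j) × D) : eps (gN D u (i + j) s) = 1 := by
  unfold gN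
  rw [map_mul, map_pow, H.eu, one_pow, one_mul]
  exact H.leD s.2.2

/-- Every rung which meets `A` is over `A`. -/
theorem IsN.full {h : ℕ} (hX : IsN H X h) {A : Fin (i + j) × D → Prop}
    (hc : (famN X).Clo A fun r => A r.1) : ∀ r v, (famN X).puz.On r v → A v → A r.1 := by
  intro r v hv hA
  rcases hv with rfl | rfl
  · have h1 : A (X.x r) := hA
    rwa [hX.x] at h1
  · have h1 : A (X.y r) := hA
    rw [hX.y] at h1
    have h2 : ∀ s : Fin (i + j) × D, A s → A (yN (i + j) H.wD H.pD i k (s, r.2)) := by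
      intro s hs
      have h3 := hc.y (s, r.2) hs
      have h4 : A (X.y (s, r.2)) := h3
      rwa [hX.y] at h4
    have h3 := (perm_iff (σ := Equiv.ofBijective _ (Finite.injective_iff_bijective.1
      (yN_inj (i + j) H.wD H.pD i k r.2))) (D := A) h2 r.1).1
    exact h3 h1

omit [DecidableEq Q] [NeZero (i + j)] [Fintype D] [DecidableEq D] in
theorem card_le (H : HypN B a t b eps D u i j k) :
    Nat.card (Fin (i + j) × D) ≤ (i + j) * k ∧ Nat.card (RgN (i + j) k D) ≤ (i + j) * k ^ 2 := by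
  have h1 : Nat.card D ≤ k := Nat.le_of_dvd H.kpos H.card
  have h2 : Nat.card (Fin (i + j) × D) ≤ (i + j) * k := by
    rw [Nat.card_prod, Nat.card_fin]
    exact Nat.mul_le_mul_left _ h1
  refine ⟨h2, ?_⟩
  rw [Nat.card_prod, Nat.card_fin, pow_two, ← mul_assoc]
  exact Nat.mul_le_mul_right _ h2

end

/-- FLIPN. -/
theorem flipN : FlipNS := by
  intro Q _ _ B a t b eps D u i j k H _ _ _ X hX f g l₀ hadj A _ hc hA hs hK hdeg
  have hcard := card_le H
  have hT : FA hc f g l₀ (FN H) (gN D u (i + j) l₀) (gN D u (i + j) ((famN X).puz.oth f l₀))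
      (gN D u (i + j) ((famN X).puz.oth g l₀)) (hN (i + j) k) :=
    { gF := fun v => by
        unfold FN
        rw [Finset.mem_map]
        constructor
        · rintro ⟨s, _, h⟩; exact ⟨s, h⟩
        · rintro ⟨s, h⟩; exact ⟨s, Finset.mem_univ _, h⟩
      hle := hX.hle
      adj := hadj
      hx := rfl
      h₁ := rfl
      h₂ := rfl
      l := hA
      full := hX.full hc
      con := hs
      hyp := hK }
  have hΛ : lamU (Nat.card (Fin (i + j) × D)) (Nat.card (RgN (i + j) k D)) (2 * k) (hN (i + j) k) ≤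
      lamN (i + j) k := by
    refine (lamU_mono hcard.1 hcard.2 le_rfl).trans ?_
    unfold lamU lamN
    exact Nat.le_add_right _ _
  refine ⟨hT.win hΛ, ?_⟩
  intro p hp hbig V ω hu hω hw hsum hno
  have hbig' : 4 * ((i + j) * k) < p := by rw [← mul_assoc]; exact hbig
  have hek : 0 < (i + j) * k := Nat.mul_pos (NeZero.pos _) H.kpos
  have h2 : (2 : ZMod p) ≠ 0 := two_ne hp.out hek hbig'
  have hke : k ≤ (i + j) * k := Nat.le_mul_of_pos_left k (NeZero.pos _)
  have h2k : ((2 * k : ℕ) : ZMod p) ≠ 0 := nat_ne (by have := H.kpos; omega) (by omega) hbig'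
  have hf : ((Nat.card {s // A s}).factorial : ZMod p) ≠ 0 := by
    refine fact_ne hp.out ?_ hbig'
    have h3 : Nat.card {s // A s} ≤ Nat.card (Fin (i + j) × D) := Nat.card_le_card_of_injective _ Subtype.val_injective
    omega
  have hδ : hc.puz.Wt (ZMod p) := SQ2.V.Puz.Wt.of_deg ⟨2 * k, h2k, hdeg⟩
  have hzk : V.chi ((u ^ (i + j)) ^ k) = 1 := by rw [map_pow, map_pow, hu, one_pow, one_pow]
  have hez : eps ((u ^ (i + j)) ^ k) = 1 := by rw [map_pow, map_pow, H.eu, one_pow, one_pow]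
  have hwn : ∀ (n : ℕ) (y : Q), ω ((H.up.U ^ n) y) = ω y := by
    intro n
    induction n with
    | zero => intro y; rfl
    | succ n ih => intro y; rw [H.up.U_pow_succ', hω, ih]
  have hcomp : ∀ r, A (X.x r) ↔ A (X.y r) := by
    intro r
    constructor
    · intro h
      rw [hX.x] at h
      exact hc.y r h
    · intro h
      rw [hX.x]
      exact hX.full hc r (X.y r) (Or.inr rfl) h
  have hN : ∀ υ υ' : ZMod p, ∀ (Y Y' : TW B) (n : ℕ), n ≤ lamN (i + j) k →
      FWin H.up (2 * k) (FN H) (X.lev f) (gN D u (i + j) l₀) (gN D u (i + j) ((famN X).puz.oth f l₀))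
        (gN D u (i + j) ((famN X).puz.oth g l₀)) Y n →
      Ver H.up Y Y' n ((H.up.U ^ X.lev f) (gN D u (i + j) ((famN X).puz.oth g l₀))) →
      dvolE (evA V eps υ υ') ω Y Y' = 0 := by
    intro υ υ' Y Y' n hn h3 h4
    rw [dvolE_evA V eps υ υ' ω h4]
    exact hno Y Y' n hn h3 h4
  constructor
  · intro υ υ' o ho
    obtain ⟨hcu, hth⟩ := hX.vol (evA V eps υ υ') o (evA_inv V eps υ υ' hzk hez) ho
    obtain ⟨Φ, hΦ⟩ := hT.potA hδ hf h2 (evA_inv V eps υ υ' hzk hez) ho hcu.cup hcu.cap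
      (fun r hr s hs => hth A hcomp r (by rw [hX.x]; exact hr) s hs) (fun s => hwn _ _) hw hsum hΛ (hN υ υ')
    refine ⟨Φ, fun r hr => ?_⟩
    have h3 := hΦ r hr
    have h4 : (famN X).y r = yN (i + j) H.wD H.pD i k r := hX.y r
    have h5 : (famN X).x r = r.1 := hX.x r
    rw [h4, h5] at h3
    exact h3
  · intro hchi hnu r hr
    obtain ⟨u', hu1, _, hu3⟩ := exists_drift V H.ea H.eb 0 hchi h2
    have h3 := hT.potB hδ hf h2 h2k (evA_inv V eps 0 u' hzk hez) hu3 (fun s => hwn _ _) hw hsum hΛ (hN 0 u') r hr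
    have h4 : (famN X).y r = yN (i + j) H.wD H.pD i k r := hX.y r
    have h5 : (famN X).x r = r.1 := hX.x r
    rw [h4, h5] at h3
    have h6 : ∀ s : Fin (i + j) × D, (evA V eps 0 u').wt H.up ((famN X).g s) =
        V.chi (gN D u (i + j) s) * (nuW V a b / 2) := fun s => hu1 _ (H.eg s)
    rw [h6, h6] at h3
    exact mul_right_cancel₀ (div_ne_zero hnu h2) h3

end Pool.Agent.Lib.MP_688fd0_co.SQ5.N
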